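import Pool.Agent.NNe.Chk
import Pool.Agent.NNe.Slots

set_option linter.all false
set_option maxRecDepth 1000000
namespace Pool.Agent.NNr.R11_6_7_10

open Pool.Agent.NNe

noncomputable def SI0_0 : Nat := (nat_lit 0x300c0300c0300c0300c03008020080200801004010040100000)
noncomputable def SW0_0 : Nat := (nat_lit 0x14009804801600600280100060010088028012002000004001e00e0068020018007)
noncomputable def RV0_0 : Nat := (nat_lit 0x20600620400818200a0880ae08800f20600918200f10000308801308804020401718202008803c08803108805d20601018202e10000d0880a908807208807d)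
noncomputable def CO0_0 : Nat := (nat_lit 0x2a80302a80202a80102a7440288840288830288810288800280c40269c40265420265410249c40241c400aa0400aa0300aa0100aa0000a744002b04002744)
noncomputable def Y0_0_1_0 : Nat := (nat_lit 0x3000000000000000000030000000000000000000300000000030000000003000000000000000000030000000003)
noncomputable def Y0_0_2_3 : Nat := (nat_lit 0x1ff0000000000000000003300000000000000000077000000007400000001e0000000000000000001e00000000000)
noncomputable def C0_0 : Cd := (Cd.mk (nat_lit 21) (nat_lit 5) (nat_lit 1025) SI0_0 SW0_0 RV0_0 CO0_0 (Sl.cons (Sd.mk (nat_lit 0) (nat_lit 0) (nat_lit 0) (nat_lit 2) (Sb.cons (nat_lit 8) (nat_lit 0) (nat_lit 2) Sb.nil) (Bl.c Y0_0_1_0 (nat_lit 10) (nat_lit 1) Bl.nil)) (Sl.cons (Sd.mk (nat_lit 2) (nat_lit 0) (nat_lit 2) (nat_lit 5) (Sb.cons (nat_lit 8) (nat_lit 0) (nat_lit 5) Sb.nil) (Bl.r Y0_0_1_0 (nat_lit 0) Bl.nil)) (Sl.cons (Sd.mk (nat_lit 9) (nat_lit 8) (nat_lit 7) (nat_lit 5) (Sb.cons (nat_lit 0) (nat_lit 0) (nat_lit 2) (Sb.cons (nat_lit 8)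 (nat_lit 2) (nat_lit 3) Sb.nil)) (Bl.r Y0_0_2_3 (nat_lit 3) Bl.nil)) (Sl.cons (Sd.mk (nat_lit 10) (nat_lit 8) (nat_lit 12) (nat_lit 9) (Sb.cons (nat_lit 0) (nat_lit 0) (nat_lit 5) (Sb.cons (nat_lit 8) (nat_lit 5) (nat_lit 4) Sb.nil)) (Bl.c Y0_0_2_3 (nat_lit 10) (nat_lit 2) Bl.nil)) Sl.nil)))))
noncomputable def SI0_1 : Nat := (nat_lit 0x140501405014050140501405014040100401004010040100300c0300c0300c0300c020080200802008020080200801004010040100401004010040000000000000000000000)
noncomputable def SW0_1 : Nat := (nat_lit 0x1b80d806a02c0120070024011008003c01003401580a804602200d803800e03301480a004202000d003400c032013807c03201800b803000a00400180c406002f017009803c016005802800402d012807402a0140098024002000)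
noncomputable def RV0_1 : Nat := (nat_lit 0x20600720400918200b0880af0880b608801708801020600a18201010000408801408804120401818202108802e18202208803508803d08803208805708804818202818202a10000908804d08805408804a08807708808208808a20600020400018200008809208800020400318200308805e20601118202f10000e0880aa0880b208806618203510001208806308807308807e088086888020a0400c98201308808ea04010982017)
noncomputable def CO0_1 : Nat := (nat_lit 0x2a80302a80202a80102a7440297840290c40288840288830288810288800280c40269c40265420265410255840255810251c40249c40241c4016ac40166440166410156810156800152c4014ac40142c4012b04012744011784011003011002011001010b8401004401004201004100aa0400aa0300aa0100aa0000a7440097840092c4008a81008a800082c4002b04002744001784001104001102001101000b84000142000141)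
noncomputable def Y0_1_1_0 : Nat := (nat_lit 0x1ff000000001200000001e4000000002000000001e4000000000000000001ed000000000800000001ff000000000000000001ff000000000000000001ff000000000000000001e0000000000000000001e8000000000800000001f80000000000)
noncomputable def Y0_1_2_3 : Nat := (nat_lit 0xff000000000800000000ff000000000800000000e3000000000000000000c300000000c300000000c3000000004000000000c3000000000000000000ff000000000800000000ff000000000800000000c7000000004000000000cf0000000008)
noncomputable def Y0_1_4_5 : Nat := (nat_lit 0x7f0000000000000000007100000000310000000073000000000000000007ff000000020200000000f3000000000000000007ff000000020000000007ff000000020000000007ff0000000200)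
noncomputable def C0_1 : Cd := (Cd.mk (nat_lit 56) (nat_lit 6) (nat_lit 546) SI0_1 SW0_1 RV0_1 CO0_1 (Sl.cons (Sd.mk (nat_lit 0) (nat_lit 0) (nat_lit 0) (nat_lit 9) (Sb.cons (nat_lit 0) (nat_lit 0) (nat_lit 3) (Sb.cons (nat_lit 4) (nat_lit 3) (nat_lit 4) (Sb.cons (nat_lit 8) (nat_lit 7) (nat_lit 2) Sb.nil))) (Bl.c Y0_1_1_0 (nat_lit 20) (nat_lit 1) Bl.nil)) (Sl.cons (Sd.mk (nat_lit 2) (nat_lit 0) (nat_lit 9) (nat_lit 10) (Sb.cons (nat_lit 0) (nat_lit 0) (nat_lit 3) (Sb.cons (nat_lit 4) (nat_lit 3) (nat_lit 2) (Sb.cons (nat_lit 8) (nat_lit 5) (nat_lit 5) Sb.nil))) (Bl.r Y0_1_1_0 (nat_lit 0) Bl.nil)) (Sl.cons (Sd.mk (nat_lit 4) (nat_lit 4) (nat_lit 19) (nat_lit 10) (Sb.cons (nat_lit 0) (nat_lit 0) (nat_lit 4) (Sb.cons (nat_lit 4) (nat_lit 4) (nat_lit 4) (Sb.cons (nat_lit 8) (nat_lit 8) (nat_lit 2) Sb.nil))) (Bl.r Y0_1_2_3 (nat_lit 3) Bl.nil)) (Sl.cons (Sd.mk (nat_lit 5) (nat_lit 4) (nat_lit 29) (nat_lit 8) (Sb.cons (nat_lit 0) (nat_lit 0) (nat_lit 2) (Sb.cons (nat_lit 4) (nat_lit 2) (nat_lit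 3) (Sb.cons (nat_lit 8) (nat_lit 5) (nat_lit 3) Sb.nil))) (Bl.c Y0_1_2_3 (nat_lit 20) (nat_lit 2) Bl.nil)) (Sl.cons (Sd.mk (nat_lit 9) (nat_lit 8) (nat_lit 37) (nat_lit 8) (Sb.cons (nat_lit 0) (nat_lit 0) (nat_lit 2) (Sb.cons (nat_lit 4) (nat_lit 2) (nat_lit 3) (Sb.cons (nat_lit 8) (nat_lit 5) (nat_lit 3) Sb.nil))) (Bl.r Y0_1_4_5 (nat_lit 5) Bl.nil)) (Sl.cons (Sd.mk (nat_lit 10) (nat_lit 8) (nat_lit 45) (nat_lit 11) (Sb.cons (nat_lit 0) (nat_lit 0) (nat_lit 5) (Sb.cons (nat_lit 4) (nat_lit 5) (nat_lit 2) (Sb.cons (nat_lit 8) (nat_lit 7) (nat_lit 4) Sb.nil))) (Bl.c Y0_1_4_5 (nat_lit 16) (nat_lit 4) Bl.nil)) Sl.nil)))))))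
noncomputable def SI0_2 : Nat := (nat_lit 0x300c0300c0300802008020080200802004010040100400000000000000000)
noncomputable def SW0_2 : Nat := (nat_lit 0x1800b804c01600600b0048022010005001400800300a803c012008001005001c00d006001c002000)
noncomputable def RV0_2 : Nat := (nat_lit 0x18202b10000a08804e08805508804b08808b2060012040011820010880930880012040041820040880b3088067182036100013088064088087888021a0400d98201408808fa04011982018)
noncomputable def CO0_2 : Nat := (nat_lit 0x156810156800152c4014ac40142c4011784011003011002011001010b840100440100420100410097840092c4008a81008a800082c4001784001104001102001101000b84000142000141)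
noncomputable def Y0_2_1_0 : Nat := (nat_lit 0x6d0000000020000000006d000000004d0000000064000000002000000000640000000000000000006d000000004d)
noncomputable def Y0_2_2_3 : Nat := (nat_lit 0x1f0000000007000000000000000000000000000000000000000000000000070000000007000000001f0000000007000000001f00000000170000000000000000000000000000070000000007)
noncomputable def C0_2 : Cd := (Cd.mk (nat_lit 25) (nat_lit 7) (nat_lit 67) SI0_2 SW0_2 RV0_2 CO0_2 (Sl.cons (Sd.mk (nat_lit 0) (nat_lit 0) (nat_lit 0) (nat_lit 7) (Sb.cons (nat_lit 0) (nat_lit 0) (nat_lit 3) (Sb.cons (nat_lit 4) (nat_lit 3) (nat_lit 4) Sb.nil)) (Bl.c Y0_2_1_0 (nat_lit 10) (nat_lit 1) Bl.nil)) (Sl.cons (Sd.mk (nat_lit 2) (nat_lit 0) (nat_lit 7) (nat_lit 5) (Sb.cons (nat_lit 0) (nat_lit 0) (nat_lit 3) (Sb.cons (nat_lit 4) (nat_lit 3) (nat_lit 2) Sb.nil)) (Bl.r Y0_2_1_0 (nat_lit 0) Bl.nil)) (Sl.cons (Sd.mk (nat_lit 4) (nat_lit 4) (nat_lit 12) (nat_lit 8) (Sb.cons (nat_lit 0) (nat_lit 0) (nat_lit 4) (Sb.cons (nat_lit 4) (nat_lit 4) (nat_lit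 4) Sb.nil)) (Bl.r Y0_2_2_3 (nat_lit 3) Bl.nil)) (Sl.cons (Sd.mk (nat_lit 5) (nat_lit 4) (nat_lit 20) (nat_lit 5) (Sb.cons (nat_lit 0) (nat_lit 0) (nat_lit 2) (Sb.cons (nat_lit 4) (nat_lit 2) (nat_lit 3) Sb.nil)) (Bl.c Y0_2_2_3 (nat_lit 16) (nat_lit 2) Bl.nil)) Sl.nil)))))
noncomputable def SI0_3 : Nat := (nat_lit 0xc0300c0300c0200801004010040100401004000000000000)
noncomputable def SW0_3 : Nat := (nat_lit 0x6002c0140090020020006013009004402000e003801800400f0068014002000)
noncomputable def RV0_3 : Nat := (nat_lit 0x8801120600b18201110000508801508803e08803308805f20601218203010000f0880ab18203710001408806508807408807f088090a04012982019)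
noncomputable def CO0_3 : Nat := (nat_lit 0x288840288830288810288800280c40249c40241c400aa0400aa0300aa0100aa0000a744008a81008a800082c4002b04002744000b84000142000141)
noncomputable def Y0_3_1_0 : Nat := (nat_lit 0x5000000000500000000000000000000000000000400000000000000000004000000000000000000050000000000000000001c0000000000000000001c0000000000000000001d000000001d)
noncomputable def Y0_3_2_3 : Nat := (nat_lit 0x17000000001400000000170000000014)
noncomputable def C0_3 : Cd := (Cd.mk (nat_lit 20) (nat_lit 7) (nat_lit 262) SI0_3 SW0_3 RV0_3 CO0_3 (Sl.cons (Sd.mk (nat_lit 0) (nat_lit 0) (nat_lit 0) (nat_lit 5) (Sb.cons (nat_lit 0) (nat_lit 0) (nat_lit 3) (Sb.cons (nat_lit 8) (nat_lit 3) (nat_lit 2) Sb.nil)) (Bl.c Y0_3_1_0 (nat_lit 16) (nat_lit 1) Bl.nil)) (Sl.cons (Sd.mk (nat_lit 2) (nat_lit 0) (nat_lit 5) (nat_lit 8) (Sb.cons (nat_lit 0) (nat_lit 0) (nat_lit 3) (Sb.cons (nat_lit 8) (nat_lit 3) (nat_lit 5) Sb.nil)) (Bl.r Y0_3_1_0 (nat_lit 0) Bl.nil)) (Sl.cons (Sd.mk (nat_lit 9) (nat_lit 8) (nat_lit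 13) (nat_lit 2) (Sb.cons (nat_lit 0) (nat_lit 0) (nat_lit 2) Sb.nil) (Bl.r Y0_3_2_3 (nat_lit 3) Bl.nil)) (Sl.cons (Sd.mk (nat_lit 10) (nat_lit 8) (nat_lit 15) (nat_lit 5) (Sb.cons (nat_lit 0) (nat_lit 0) (nat_lit 5) Sb.nil) (Bl.c Y0_3_2_3 (nat_lit 4) (nat_lit 2) Bl.nil)) Sl.nil)))))
noncomputable def SI0_4 : Nat := (nat_lit 0x200802008020080200802008020080200802008020080200802008020080200701c0701c0701c0701c0701c0701c06018060180601806018060180601806018060180601806018060180601806018060180601806018060180601806018060140501405014050140501405014050140501405014050140501004010040100401004010040100401004010040100401004010040100300c0300c0300c0300c0300c0300c0300c0300c0300c0300c0300c0300c0300802008020080200802008020080200401004010040100401004010040100401004010040100401000000000000000000000000000000)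
noncomputable def SW0_4 : Nat := (nat_lit 0x3781b80b205b02c015c0b405602a8150084044020810008603f01f00f407802b015007c03c00b00501b40d805302900ec074029014007403800900401a40d606803381980d4065032018c09e05102701340a004c025812806e03901b00d407003401980c8062027013006403601800b806802c01500a004c00e00605d82e81440a104a824412c094049824812008f04700c004a012008804001e00505c02d41720b705b02d01660b2050027c118089046822c114088043821805e02e01200380080b005682c415e0ae05602ac1540a904f0274108081042820c10408003f81f80fa062024812001a003054029c13809b03e01ec0c20470060008002000053029413409903c81d80f407803b81d40e807303901800be05e02e811805a023052028c13009703881c00b80450160088042020)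
noncomputable def RV0_4 : Nat := (nat_lit 0x8806f08801f0880b108806d08806218203308801d08800d20400b18200d0880b908806c18203410001108801c08800e20600818200e10000208806b08801b08806e08801e08806a08801a08805b08804408805308803b08805208803a08805108803908805a08804308805008803808807a88802b888023a0400f98201608800b206002204002182002088085888029a0401398201a08800908800320400618200608808d88802888802498201b08800808800420600318200710000088802708800708809688802a88802598201c08800a0880052060041820081000018880260880060880bb0880a60880b80880b00880a80880a408801908800c20400a18200c2060052040071820090880b708801808801220600c1820121000060880160880a208809a08804208803018202408802d20401518201e0880a008809e08809c08809808803720401618201f08802c20401418201d08802f18202308803608803f0880340880a108809908805918202c10000b08804620600e18202610000808809f08809d08809b08809708804f08804718202708804520600d18202510000708805808804918202908805608804c08809508807908808c08808408807c0880710880780880830880940880022040051820050880ba0880a50880b50880ad0880a70880a308806908806118203208805c20600f18202d10000c0880602060131820311000100880ac0880b408806808809108807608808908808108807b088070088075088080088088888022a0400e982015)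
noncomputable def CO0_4 : Nat := (nat_lit 0x3aac403a8c403a74403a6c403a64403a64103a4c403a44403a44203a4410397840396c40396810396800394c40394840394830394810394800392c40390c4038ac40388c40382c40380c4036ac40369c40366c40365c40356c40355c40352c40351c4034ac40349c40342c40341c4032b040329c40329040329020329010328c40328030328020328010327440325c40325420325410324c40324440324420324410317840315c40315840315810314c40314840314830314810314800311c40310c4030b840309c40309840309810308c40308840308830308810308800301c40300c402bb8402bb0402b78402b74402b34402b30402b0c402b04402b04202b04102b00302b00202b0010297840290c40288840288830288810288800280c4027b84027b040279c40279840279810279040279020279010277840277440273440273040271c40271420271410271040271020271010255840255810251c40249c40241c4017b84017b04017ac4017a81017a80017a04017a03017a01017a000177840177440173440173040172c4017244017241017204017203017201017200016ac4016644016641014ac40142c4013b84013b04013784013744013344013304012b04012744010b8401004401004201004100bb8400bb0400b78400b74400b34400b30400b2c400b24400b24100b20400b20300b20100b20000aa0400aa0300aa0100aa0000a7440097840092c4003b84003b04003784003744003344003304002b04002744001784001104001102001101)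
noncomputable def Y0_4_1_0 : Nat := (nat_lit 0x3f0000000001000000003f0000000003000000003f0000000001000000003f0000000002000000003f0000000002000000003f0000000003000000003f0000000000000000003f0000000000000000003f0000000002000000003f0000000000000000003d0000000000000000003f0000000002000000003f00000000000000000fcf00000005c00000000fcd0000000fc00000000fcf00000000020000000fcf0000000fc00000000fcf00000000000000000ff000000000000000000ff00000000000)
noncomputable def Y0_4_2_3 : Nat := (nat_lit 0x1f000000000c000000001f000000001f000000001f000000000c000000001f000000001f000000001f000000001f000000001f000000001f0001ffffe300000400800001ffffe300000400800001fffffc00000400800001fffffc00000000000001fbff7c00000a074c0001fffffc0000040080)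
noncomputable def Y0_4_4_5 : Nat := (nat_lit 0x7f0000000000000000007f0000000000000000007f0000000000000000007f0000000008000000007f0000000008000000007f000000000800000000770000000054000000007f0000000008000000007f0000000000000000007f0000000000000000007f0000000000000000007f0000000000000000007f000000000000000000770000000054000000007f0000000000000000007f000000000800000000770000000054000000007f000000000800000fff9f00000fcb0800000fff9f0000000b0800000fff9f000005c00000000fffe0000005c00000000fffe0000005c000)
noncomputable def Y0_4_6_6 : Nat := (nat_lit 0x10120200000000000000000000000000000000000000000000000000000000000000000000000000000000000000000000003c178200000c01800000101202000010120200001012020000101202000010120200000000000000101202000000000000000000000000000000000000000000000000000000000000000000000000003c178200000c0180000010120200000000000000101202000010120200001012020000000000201000020200000000000000000000000000000000000000000000000000000000000000000000007c3c0007821c0800018020100002020000000000201000020220100002022010000202000000000020100002022010000202000000000000000000007c3c0007821c08000180201010100000000000000000000000000000000000000000000000000000000000000000000000007c3c3c10001c080c000020101010000000000000201010100020101010002010101000000000000020101010002010101000000000000000000000007c3c3c10001c080c0000)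
noncomputable def Y0_4_7_7 : Nat := (nat_lit 0xaa00000000000000000000000000000000000000aa0000000000000000000000000000000000000a0a0000000000000000000000000000000000000a0a0000000000000000000000000000000000000aa00000000000000000000000000000000000000aa00000000000)
noncomputable def Y0_4_8_8 : Nat := (nat_lit 0x47d50000000040000000000000000000000000000415000000000000000047d50000000040000000041500000004150000000415000000000000000000000000000000000000000000000000000000000000000000000000000000000000000000000084000500000000000000c780050000010000000084000500000000000000840005000084000500000000000000000000000000000000000000000000000000000000000000000000000000000000000000000000000000000000c780050000010000000000000000000000000000c7c7d00000010040000000000000000000000000c7c7d0000001004000000000000000000000)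
noncomputable def C0_4 : Cd := (Cd.mk (nat_lit 188) (nat_lit 4) (nat_lit 4369) SI0_4 SW0_4 RV0_4 CO0_4 (Sl.cons (Sd.mk (nat_lit 0) (nat_lit 0) (nat_lit 0) (nat_lit 12) (Sb.cons (nat_lit 4) (nat_lit 0) (nat_lit 4) (Sb.cons (nat_lit 8) (nat_lit 4) (nat_lit 2) (Sb.cons (nat_lit 12) (nat_lit 6) (nat_lit 6) Sb.nil))) (Bl.c Y0_4_1_0 (nat_lit 40) (nat_lit 1) Bl.nil)) (Sl.cons (Sd.mk (nat_lit 2) (nat_lit 0) (nat_lit 12) (nat_lit 20) (Sb.cons (nat_lit 4) (nat_lit 0) (nat_lit 2) (Sb.cons (nat_lit 8) (nat_lit 2) (nat_lit 5) (Sb.cons (nat_lit 12) (nat_lit 7) (nat_lit 13) Sb.nil))) (Bl.r Y0_4_1_0 (nat_lit 0) Bl.nil)) (Sl.cons (Sd.mk (nat_lit 4) (nat_lit 4) (nat_lit 32) (nat_lit 12) (Sb.cons (nat_lit 0) (nat_lit 0) (nat_lit 4) (Sb.cons (nat_lit 8) (nat_lit 4) (nat_lit 2) (Sb.cons (nat_lit 12) (nat_lit 6) (nat_lit 6) Sb.nil))) (Bl.r Y0_4_2_3 (nat_lit 3) Bl.nil)) (Sl.cons (Sd.mk (nat_lit 5) (nat_lit 4) (nat_lit 44) (nat_lit 25) (Sb.cons (nat_lit 0) (nat_lit 0) (nat_lit 2) (Sb.cons (nat_lit 8) (nat_lit 2)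 (nat_lit 3) (Sb.cons (nat_lit 12) (nat_lit 5) (nat_lit 20) Sb.nil))) (Bl.c Y0_4_2_3 (nat_lit 24) (nat_lit 2) Bl.nil)) (Sl.cons (Sd.mk (nat_lit 9) (nat_lit 8) (nat_lit 69) (nat_lit 23) (Sb.cons (nat_lit 0) (nat_lit 0) (nat_lit 2) (Sb.cons (nat_lit 4) (nat_lit 2) (nat_lit 3) (Sb.cons (nat_lit 12) (nat_lit 5) (nat_lit 18) Sb.nil))) (Bl.r Y0_4_4_5 (nat_lit 5) Bl.nil)) (Sl.cons (Sd.mk (nat_lit 10) (nat_lit 8) (nat_lit 92) (nat_lit 20) (Sb.cons (nat_lit 0) (nat_lit 0) (nat_lit 5) (Sb.cons (nat_lit 4) (nat_lit 5) (nat_lit 2) (Sb.cons (nat_lit 12) (nat_lit 7) (nat_lit 13) Sb.nil))) (Bl.c Y0_4_4_5 (nat_lit 46) (nat_lit 4) Bl.nil)) (Sl.cons (Sd.mk (nat_lit 12) (nat_lit 12) (nat_lit 112) (nat_lit 39) (Sb.cons (nat_lit 0) (nat_lit 0) (nat_lit 11) (Sb.cons (nat_lit 4) (nat_lit 11) (nat_lit 11) (Sb.cons (nat_lit 8) (nat_lit 22) (nat_lit 17) Sb.nil))) (Bl.r Y0_4_6_6 (nat_lit 6) (Bl.c Y0_4_6_6 (nat_lit 78) (nat_lit 6) Bl.nil))) (Sl.cons (Sd.mk (nat_lit 13) (nat_lit 12) (nat_lit 151) (nat_lit 12) (Sb.cons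 (nat_lit 0) (nat_lit 0) (nat_lit 4) (Sb.cons (nat_lit 4) (nat_lit 4) (nat_lit 4) (Sb.cons (nat_lit 8) (nat_lit 8) (nat_lit 4) Sb.nil))) (Bl.r Y0_4_7_7 (nat_lit 7) (Bl.c Y0_4_7_7 (nat_lit 24) (nat_lit 7) Bl.nil))) (Sl.cons (Sd.mk (nat_lit 14) (nat_lit 12) (nat_lit 163) (nat_lit 25) (Sb.cons (nat_lit 0) (nat_lit 0) (nat_lit 4) (Sb.cons (nat_lit 4) (nat_lit 4) (nat_lit 11) (Sb.cons (nat_lit 8) (nat_lit 15) (nat_lit 10) Sb.nil))) (Bl.r Y0_4_8_8 (nat_lit 8) (Bl.c Y0_4_8_8 (nat_lit 50) (nat_lit 8) Bl.nil))) Sl.nil))))))))))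
noncomputable def CL0 : Cl := (Cl.cons C0_0 (Cl.cons C0_1 (Cl.cons C0_2 (Cl.cons C0_3 (Cl.cons C0_4 Cl.nil)))))
noncomputable def ZL0_0 : Zl := (Zl.cons (nat_lit 0) (nat_lit 0) (nat_lit 0) (Zl.cons (nat_lit 19) (nat_lit 0) (nat_lit 10) (Zl.cons (nat_lit 12) (nat_lit 10) (nat_lit 8) (Zl.cons (nat_lit 0) (nat_lit 0) (nat_lit 0) (Zl.cons (nat_lit 32) (nat_lit 18) (nat_lit 12) Zl.nil)))))
noncomputable def ZZ0 : ZZ := (ZZ.cons ZL0_0 ZZ.nil)
noncomputable def SI1_0 : Nat := (nat_lit 0x80200400)
noncomputable def SW1_0 : Nat := (nat_lit 0x18000002002)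
noncomputable def RV1_0 : Nat := (nat_lit 0x18200418200518200e182013)
noncomputable def CO1_0 : Nat := (nat_lit 0x2a80102888102654100aa01)
noncomputable def Y1_0_1_2 : Nat := (nat_lit 0xc0000)
noncomputable def C1_0 : Cd := (Cd.mk (nat_lit 4) (nat_lit 5) (nat_lit 1025) SI1_0 SW1_0 RV1_0 CO1_0 (Sl.cons (Sd.mk (nat_lit 2) (nat_lit 0) (nat_lit 0) (nat_lit 1) (Sb.cons (nat_lit 8) (nat_lit 0) (nat_lit 1) Sb.nil) Bl.nil) (Sl.cons (Sd.mk (nat_lit 9) (nat_lit 8) (nat_lit 1) (nat_lit 1) (Sb.cons (nat_lit 8) (nat_lit 0) (nat_lit 1) Sb.nil) (Bl.r Y1_0_1_2 (nat_lit 2) Bl.nil)) (Sl.cons (Sd.mk (nat_lit 10) (nat_lit 8) (nat_lit 2) (nat_lit 2) (Sb.cons (nat_lit 0) (nat_lit 0) (nat_lit 1) (Sb.cons (nat_lit 8) (nat_lit 1) (nat_lit 1) Sb.nil)) (Bl.c Y1_0_1_2 (nat_lit 2) (nat_lit 1) Bl.nil)) Sl.nil))))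
noncomputable def SI1_1 : Nat := (nat_lit 0x501405014040100400c0300802008020080200801004010000000000)
noncomputable def SW1_1 : Nat := (nat_lit 0x5801a006002804801e00c008803802a01000580280060020008050026004004802000e000)
noncomputable def RV1_1 : Nat := (nat_lit 0x20400608800908800610000020401108801508801908801c10000108803008803520600020400008800020400218200108802210000210000388800ea04009982007a0400c)
noncomputable def CO1_1 : Nat := (nat_lit 0x2a8020290c40288840288800265420255840251c4016644015680012b0401274401100301100201004401004201004100aa0400aa00008a80001104001102001101000142)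
noncomputable def Y1_1_1_0 : Nat := (nat_lit 0x140000000080000000080000)
noncomputable def Y1_1_2_3 : Nat := (nat_lit 0x40000000040000000080000000080000000040000000080000000040000)
noncomputable def Y1_1_4_5 : Nat := (nat_lit 0x180000000240000000200000)
noncomputable def C1_1 : Cd := (Cd.mk (nat_lit 23) (nat_lit 6) (nat_lit 546) SI1_1 SW1_1 RV1_1 CO1_1 (Sl.cons (Sd.mk (nat_lit 0) (nat_lit 0) (nat_lit 0) (nat_lit 4) (Sb.cons (nat_lit 0) (nat_lit 0) (nat_lit 1) (Sb.cons (nat_lit 4) (nat_lit 1) (nat_lit 3) Sb.nil)) (Bl.c Y1_1_1_0 (nat_lit 6) (nat_lit 1) Bl.nil)) (Sl.cons (Sd.mk (nat_lit 2) (nat_lit 0) (nat_lit 4) (nat_lit 3) (Sb.cons (nat_lit 0) (nat_lit 0) (nat_lit 1) (Sb.cons (nat_lit 8) (nat_lit 1) (nat_lit 2) Sb.nil)) (Bl.r Y1_1_1_0 (nat_lit 0) Bl.nil)) (Sl.cons (Sd.mk (nat_lit 4) (nat_lit 4) (nat_lit 7) (nat_lit 7) (Sb.cons (nat_lit 0) (nat_lit 0) (nat_lit 3) (Sb.cons (nat_lit 4) (nat_lit 3) (nat_lit 2) (Sb.cons (nat_lit 8) (nat_lit 5) (nat_lit 2) Sb.nil))) (Bl.r Y1_1_2_3 (nat_lit 3) Bl.nil))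 (Sl.cons (Sd.mk (nat_lit 5) (nat_lit 4) (nat_lit 14) (nat_lit 2) (Sb.cons (nat_lit 4) (nat_lit 0) (nat_lit 1) (Sb.cons (nat_lit 8) (nat_lit 1) (nat_lit 1) Sb.nil)) (Bl.c Y1_1_2_3 (nat_lit 14) (nat_lit 2) Bl.nil)) (Sl.cons (Sd.mk (nat_lit 9) (nat_lit 8) (nat_lit 16) (nat_lit 3) (Sb.cons (nat_lit 4) (nat_lit 0) (nat_lit 2) (Sb.cons (nat_lit 8) (nat_lit 2) (nat_lit 1) Sb.nil)) (Bl.r Y1_1_4_5 (nat_lit 5) Bl.nil)) (Sl.cons (Sd.mk (nat_lit 10) (nat_lit 8) (nat_lit 19) (nat_lit 4) (Sb.cons (nat_lit 0) (nat_lit 0) (nat_lit 2) (Sb.cons (nat_lit 4) (nat_lit 2) (nat_lit 1) (Sb.cons (nat_lit 8) (nat_lit 3) (nat_lit 1) Sb.nil))) (Bl.c Y1_1_4_5 (nat_lit 6) (nat_lit 4) Bl.nil)) Sl.nil)))))))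
noncomputable def SI1_2 : Nat := (nat_lit 0xc0300c0300802008020080100401004000000000000)
noncomputable def SW1_2 : Nat := (nat_lit 0x2200d004001002000c003800c00400f005801800200e005002400a000)
noncomputable def RV1_2 : Nat := (nat_lit 0x18201208801f08802008801e08803818200008803c08800118200208804408802818201608802608803788800f98200808803998200a)
noncomputable def CO1_2 : Nat := (nat_lit 0x156810152c4014ac40142c4011784011001010b840100440100410097840092c4008a810082c4001784001104001101000b84000141)
noncomputable def Y1_2_1_0 : Nat := (nat_lit 0x2000080005c00160002000080005c0012)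
noncomputable def Y1_2_2_3 : Nat := (nat_lit 0x1c00070001c00000001c00070003c000f0001c0002)
noncomputable def C1_2 : Cd := (Cd.mk (nat_lit 18) (nat_lit 7) (nat_lit 67) SI1_2 SW1_2 RV1_2 CO1_2 (Sl.cons (Sd.mk (nat_lit 0) (nat_lit 0) (nat_lit 0) (nat_lit 5) (Sb.cons (nat_lit 0) (nat_lit 0) (nat_lit 2) (Sb.cons (nat_lit 4) (nat_lit 2) (nat_lit 3) Sb.nil)) (Bl.c Y1_2_1_0 (nat_lit 8) (nat_lit 1) Bl.nil)) (Sl.cons (Sd.mk (nat_lit 2) (nat_lit 0) (nat_lit 5) (nat_lit 4) (Sb.cons (nat_lit 0) (nat_lit 0) (nat_lit 2) (Sb.cons (nat_lit 4) (nat_lit 2) (nat_lit 2) Sb.nil)) (Bl.r Y1_2_1_0 (nat_lit 0) Bl.nil)) (Sl.cons (Sd.mk (nat_lit 4) (nat_lit 4) (nat_lit 9) (nat_lit 5) (Sb.cons (nat_lit 0) (nat_lit 0) (nat_lit 3) (Sb.cons (nat_lit 4) (nat_lit 3) (nat_lit 2) Sb.nil)) (Bl.r Y1_2_2_3 (nat_lit 3) Bl.nil)) (Sl.cons (Sd.mk (nat_lit 5) (nat_lit 4) (nat_lit 14) (nat_lit 4) (Sb.cons (nat_lit 0) (nat_lit 0) (nat_lit 2) (Sb.cons (nat_lit 4) (nat_lit 2) (nat_lit 2) Sb.nil)) (Bl.c Y1_2_2_3 (nat_lit 10) (nat_lit 2)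 Bl.nil)) Sl.nil)))))
noncomputable def SI1_3 : Nat := (nat_lit 0x3008010040000000)
noncomputable def SW1_3 : Nat := (nat_lit 0x100040060008014006000)
noncomputable def RV1_3 : Nat := (nat_lit 0x8800708801808802308802708803408803a98200b)
noncomputable def CO1_3 : Nat := (nat_lit 0x288840241c400aa040082c4002744000b84000141)
noncomputable def Y1_3_1_0 : Nat := (nat_lit 0xc00020001c0006)
noncomputable def Y1_3_2_3 : Nat := (nat_lit 0x40001)
noncomputable def C1_3 : Cd := (Cd.mk (nat_lit 7) (nat_lit 7) (nat_lit 262) SI1_3 SW1_3 RV1_3 CO1_3 (Sl.cons (Sd.mk (nat_lit 0) (nat_lit 0) (nat_lit 0) (nat_lit 3) (Sb.cons (nat_lit 0) (nat_lit 0) (nat_lit 2) (Sb.cons (nat_lit 8) (nat_lit 2) (nat_lit 1) Sb.nil)) (Bl.c Y1_3_1_0 (nat_lit 4) (nat_lit 1) Bl.nil)) (Sl.cons (Sd.mk (nat_lit 2) (nat_lit 0) (nat_lit 3) (nat_lit 2) (Sb.cons (nat_lit 0) (nat_lit 0) (nat_lit 1) (Sb.cons (nat_lit 8) (nat_lit 1) (nat_lit 1) Sb.nil)) (Bl.r Y1_3_1_0 (nat_lit 0) Bl.nil)) (Sl.cons (Sd.mk (nat_lit 9) (nat_lit 8) (nat_lit 5) (nat_lit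 1) (Sb.cons (nat_lit 0) (nat_lit 0) (nat_lit 1) Sb.nil) (Bl.r Y1_3_2_3 (nat_lit 3) Bl.nil)) (Sl.cons (Sd.mk (nat_lit 10) (nat_lit 8) (nat_lit 6) (nat_lit 1) (Sb.cons (nat_lit 0) (nat_lit 0) (nat_lit 1) Sb.nil) (Bl.c Y1_3_2_3 (nat_lit 2) (nat_lit 2) Bl.nil)) Sl.nil)))))
noncomputable def SI1_4 : Nat := (nat_lit 0x1c0701c0701c0701c0701c0701806018060180601806018060180601806018060180501405014050140501405014050100401004010040100300c0300c0300c0200802008020080200401004010040100401000000000000000)
noncomputable def SW1_4 : Nat := (nat_lit 0x1600ac04202000a004c01a00c0028010054028014809c04c01f00f00680320180090044016009005000c00404702300f407603c01d00e402e008003801808a04401c00dc02c01500800d806a034012807403804302100cc06401b000800008204001880bc060024011808807e03e01700b401e00e)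
noncomputable def RV1_4 : Nat := (nat_lit 0x8802c08800d08802520400808802a08800b08802b08800c08802908800a888014a0400b088005206001204001a0400d20400488801098200c20600288801208800388801398200d08800488801108800208804708804108804308803f20400720600320400508804508800820600418200608801720400f20401020400e08801618200f08801a08801b18201020600508802108801d18201108803d08803108803308802e08803620400318200308804608804008804208803e18201508802420600618201408803b08802f08803208802da0400a982009)
noncomputable def CO1_4 : Nat := (nat_lit 0x3aac403a8c403a64403a4420392c40390c4038ac40388c40382c40380c40329c40329020328c40328030328020325420324420315840315810314830311c40310c40309c40309810308c40301c40300c402bb8402bb0402b34402b30402b04202b00302b0020297840288840288830288810279840279020271420271020255840255810251c4017244017241017203016ac4016644016641013b84013b0401334401330401274401004201004100bb8400bb0400b34400b30400b24100aa0400aa0300aa01003b84003b04003344003304001102001101)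
noncomputable def Y1_4_1_0 : Nat := (nat_lit 0x400000000c00000000800020000c0002000080002000700000000f00000000080000)
noncomputable def Y1_4_2_3 : Nat := (nat_lit 0xc00000001c00000001c00000001c0000000200000000cc0003000200000)
noncomputable def Y1_4_4_5 : Nat := (nat_lit 0x8000000034000000034000000034000001fc800f0001c8007000e000000)
noncomputable def Y1_4_6_6 : Nat := (nat_lit 0xc20000800148001000148001000000000000148000000000000000000000040048000000000000022020000000000000000000000022c00800000000000022c000000)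
noncomputable def Y1_4_7_7 : Nat := (nat_lit 0x540000000000000001000000000000000001000000000000000001000000000000000)
noncomputable def C1_4 : Cd := (Cd.mk (nat_lit 72) (nat_lit 4) (nat_lit 4369) SI1_4 SW1_4 RV1_4 CO1_4 (Sl.cons (Sd.mk (nat_lit 0) (nat_lit 0) (nat_lit 0) (nat_lit 6) (Sb.cons (nat_lit 4) (nat_lit 0) (nat_lit 2) (Sb.cons (nat_lit 12) (nat_lit 2) (nat_lit 4) Sb.nil)) (Bl.c Y1_4_1_0 (nat_lit 16) (nat_lit 1) Bl.nil)) (Sl.cons (Sd.mk (nat_lit 2) (nat_lit 0) (nat_lit 6) (nat_lit 8) (Sb.cons (nat_lit 8) (nat_lit 0) (nat_lit 3) (Sb.cons (nat_lit 12) (nat_lit 3) (nat_lit 5) Sb.nil)) (Bl.r Y1_4_1_0 (nat_lit 0) Bl.nil)) (Sl.cons (Sd.mk (nat_lit 4) (nat_lit 4) (nat_lit 14) (nat_lit 7) (Sb.cons (nat_lit 0) (nat_lit 0) (nat_lit 2) (Sb.cons (nat_lit 8) (nat_lit 2) (nat_lit 1) (Sb.cons (nat_lit 12) (nat_lit 3) (nat_lit 4) Sb.nil))) (Bl.r Y1_4_2_3 (nat_lit 3) Bl.nil)) (Sl.cons (Sd.mk (nat_lit 5) (nat_lit 4) (nat_lit 21) (nat_lit 6) (Sb.cons (nat_lit 8) (nat_lit 0) (nat_lit 3) (Sb.cons (nat_lit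 12) (nat_lit 3) (nat_lit 3) Sb.nil)) (Bl.c Y1_4_2_3 (nat_lit 14) (nat_lit 2) Bl.nil)) (Sl.cons (Sd.mk (nat_lit 9) (nat_lit 8) (nat_lit 27) (nat_lit 7) (Sb.cons (nat_lit 4) (nat_lit 0) (nat_lit 3) (Sb.cons (nat_lit 12) (nat_lit 3) (nat_lit 4) Sb.nil)) (Bl.r Y1_4_4_5 (nat_lit 5) Bl.nil)) (Sl.cons (Sd.mk (nat_lit 10) (nat_lit 8) (nat_lit 34) (nat_lit 11) (Sb.cons (nat_lit 0) (nat_lit 0) (nat_lit 3) (Sb.cons (nat_lit 4) (nat_lit 3) (nat_lit 1) (Sb.cons (nat_lit 12) (nat_lit 4) (nat_lit 7) Sb.nil))) (Bl.c Y1_4_4_5 (nat_lit 14) (nat_lit 4) Bl.nil)) (Sl.cons (Sd.mk (nat_lit 12) (nat_lit 12) (nat_lit 45) (nat_lit 17) (Sb.cons (nat_lit 0) (nat_lit 0) (nat_lit 5) (Sb.cons (nat_lit 4) (nat_lit 5) (nat_lit 5) (Sb.cons (nat_lit 8) (nat_lit 10) (nat_lit 7) Sb.nil))) (Bl.r Y1_4_6_6 (nat_lit 6) (Bl.c Y1_4_6_6 (nat_lit 34) (nat_lit 6) Bl.nil))) (Sl.cons (Sd.mk (nat_lit 14) (nat_lit 12) (nat_lit 62) (nat_lit 10) (Sb.cons (nat_lit 0) (nat_lit 0) (nat_lit 4) (Sb.cons (nat_lit 4) (nat_lit 4) (nat_lit 2) (Sb.cons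 (nat_lit 8) (nat_lit 6) (nat_lit 4) Sb.nil))) (Bl.r Y1_4_7_7 (nat_lit 7) (Bl.c Y1_4_7_7 (nat_lit 20) (nat_lit 7) Bl.nil))) Sl.nil)))))))))
noncomputable def CL1 : Cl := (Cl.cons C1_0 (Cl.cons C1_1 (Cl.cons C1_2 (Cl.cons C1_3 (Cl.cons C1_4 Cl.nil)))))
noncomputable def AL1_0 : Nat := (nat_lit 0x74217)
noncomputable def A41_0 : Nat := (nat_lit 0x44210)
noncomputable def IX1_0 : Nat := (nat_lit 0x3000000000000000000000000000000000000000000000000000200000000000000000000000000000000000000000000000000000000000000001000000000000000000000000000000000000000000000000000000000000000000000000000000000000000000000000000000000000000000000)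
noncomputable def OL1_0 : Nat := (nat_lit 0x9000e00120010)
noncomputable def AL1_1 : Nat := (nat_lit 0x466af97b7e843a)
noncomputable def A41_1 : Nat := (nat_lit 0x464a891b3c843a)
noncomputable def IX1_1 : Nat := (nat_lit 0x16000000000000000000000000000000000000000000000000001500000000000140000000000000000000000000000000000000130000000000000000000000000000000000000120000000000000000000000001100000000000000000000000010000000000000000000000000000000000000000000000000000f00000000000000000000000000000000000000e000000000000000000000000000000000000000000000000000d000000000000c0000000000000000000000000b000000000000a000000000000000000000000000000000000009000000000000800000000000070000000000006000000000000000000000000000000000000005000000000000000000000000000000000000000000000000000000000000000040000000000000000000000000000000000000000000000000000000000000000300000000000020000000000001000000000000000000000000000000000000000)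
noncomputable def OL1_1 : Nat := (nat_lit 0x36006400c4017002b0052009c01180200038006c00c8018002a00500098012001e0028002800400060004)
noncomputable def AL1_2 : Nat := (nat_lit 0x179deed)
noncomputable def A41_2 : Nat := (nat_lit 0x179deed)
noncomputable def IX1_2 : Nat := (nat_lit 0x1100000000000000000000000010000000000000f000000000000e000000000000d00000000000000000000000000000000000000c000000000000b000000000000a00000000000000000000000009000000000000800000000000070000000000006000000000000000000000000050000000000004000000000000300000000000000000000000002000000000000100000000000000000000000000)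
noncomputable def OL1_2 : Nat := (nat_lit 0x30005800a801400260040007800e0018002c0050009000e0018002800300040000)
noncomputable def AL1_3 : Nat := (nat_lit 0xa703d)
noncomputable def A41_3 : Nat := (nat_lit 0x8302d)
noncomputable def IX1_3 : Nat := (nat_lit 0x60000000000000000000000000000000000000000000000000000000000000000000000000000050000000000004000000000000000000000000000000000000000000000000000000000000000000000000000000000000000000300000000000000000000000002000000000000100000000000000000000000000)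
noncomputable def OL1_3 : Nat := (nat_lit 0x13001a0030002800300040000)
noncomputable def AL1_4 : Nat := (nat_lit 0xda963f8003f9a9ebbd7fcb5c1f05fe0e07dfffbfc978fc3)
noncomputable def A41_4 : Nat := (nat_lit 0xc8801f8002b888c9ac3ccb5c1204b800069ccd3cc870cc3)
noncomputable def IX1_4 : Nat := (nat_lit 0x470000000000046000000000000000000000000000000000000045000000000000000000000000000000000000000000000000004400000000000000000000000000000000000000000000000000000000000000000000000000000000000000000000000000000000000000000000000000000000000000000000043000000000004200000000000410000000000040000000000003f000000000003e0000000000000000000000000000000000000000000000000000000000000000000000000000000000000000000000000000000000000000000000000000000000000000000000000000000000000000000000000000000000003d0000000000000000000000003c0000000000000000000000003b000000000003a000000000003900000000000000000000000000000000000000000000000000380000000000000000000000000000000000000000000000000037000000000000000000000000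0000000000000000000000000036000000000003500000000000000000000000000000000000003400000000000000000000000000000000000003300000000000320000000000000000000000003100000000000000000000000030000000000002f0000000000000000000000000000000000000000000000000000000000000002e000000000002d000000000002c000000000002b00000000000000000000000000000000000002a0000000000029000000000000000000000000000000000000028000000000000000000000000270000000000026000000000000000000000000250000000000000000000000002400000000000230000000000022000000000000000000000000000000000000000000000000000000000000000000000000000021000000000000000000000000000000000000020000000000000000000000000000000000000000000000000000000000000000000000000000000000000000001f00000000000000000000000000000000000001e0000000000000000000000001d000000000001c000000000001b0000000000000000000000000000000000000000000000000000000000000000000000000000000000000000000000000000000000000000000000000000000000000000000000000000000000000000000000000000000000000000000000000000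000000000000000000000001a00000000000190000000000000000000000001800000000000000000000000000000000000001700000000000160000000000015000000000000000000000000000000000000014000000000001300000000000000000000000000000000000001200000000000110000000000000000000000001000000000000000000000000000000000000000f000000000000e000000000000d000000000000c00000000000000000000000000000000000000b000000000000a00000000000000000000000000000000000000900000000000000000000000000000000000000000000000000000000000000008000000000000700000000000060000000000000000000000000000000000000000000000000000000000000000500000000000040000000000000000000000000000000000000030000000000002000000000000000000000000000000000000000000000000000000000000000010000000000000)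
noncomputable def OL1_4 : Nat := (nat_lit 0x5d80ba016e02cc05400a7014c029405200a3012a024c0488090011e022c0438083010401fc03e007b00f201dc03b007100e001bc037006b00d4019c032806400c4018002f805e00b00154027004b009201200238036006a00cc018002f005c00ac0150027004c00900108020003e007800d801a002e0048008801000160028003800600020000)
noncomputable def TL1 : Tl := (Tl.cons (Tr.mk AL1_0 A41_0 IX1_0 OL1_0) (Tl.cons (Tr.mk AL1_1 A41_1 IX1_1 OL1_1) (Tl.cons (Tr.mk AL1_2 A41_2 IX1_2 OL1_2) (Tl.cons (Tr.mk AL1_3 A41_3 IX1_3 OL1_3) (Tl.cons (Tr.mk AL1_4 A41_4 IX1_4 OL1_4) Tl.nil)))))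
noncomputable def ZL1_0 : Zl := (Zl.cons (nat_lit 0) (nat_lit 0) (nat_lit 4) (Zl.cons (nat_lit 0) (nat_lit 0) (nat_lit 23) (Zl.cons (nat_lit 0) (nat_lit 0) (nat_lit 18) (Zl.cons (nat_lit 0) (nat_lit 0) (nat_lit 7) (Zl.cons (nat_lit 0) (nat_lit 0) (nat_lit 72) Zl.nil)))))
noncomputable def ZZ1 : ZZ := (ZZ.cons ZL1_0 ZZ.nil)
noncomputable def C2_0 : Cd := (Cd.mk (nat_lit 0) (nat_lit 5) (nat_lit 1025) (nat_lit 0) (nat_lit 0) (nat_lit 0) (nat_lit 0) Sl.nil)
noncomputable def C2_1 : Cd := (Cd.mk (nat_lit 0) (nat_lit 6) (nat_lit 546) (nat_lit 0) (nat_lit 0) (nat_lit 0) (nat_lit 0) Sl.nil)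
noncomputable def SI2_2 : Nat := (nat_lit 0x8020040100000)
noncomputable def SW2_2 : Nat := (nat_lit 0x60010028000008002)
noncomputable def RV2_2 : Nat := (nat_lit 0x88009088000088006088004888001088007)
noncomputable def CO2_2 : Nat := (nat_lit 0x10b840100440092c40082c4001104000b84)
noncomputable def Y2_2_1_0 : Nat := (nat_lit 0x1010)
noncomputable def C2_2 : Cd := (Cd.mk (nat_lit 6) (nat_lit 7) (nat_lit 67) SI2_2 SW2_2 RV2_2 CO2_2 (Sl.cons (Sd.mk (nat_lit 0) (nat_lit 0) (nat_lit 0) (nat_lit 2) (Sb.cons (nat_lit 0) (nat_lit 0) (nat_lit 1) (Sb.cons (nat_lit 4) (nat_lit 1) (nat_lit 1) Sb.nil)) (Bl.c Y2_2_1_0 (nat_lit 4) (nat_lit 1) Bl.nil)) (Sl.cons (Sd.mk (nat_lit 2) (nat_lit 0) (nat_lit 2) (nat_lit 2) (Sb.cons (nat_lit 0) (nat_lit 0) (nat_lit 1) (Sb.cons (nat_lit 4) (nat_lit 1) (nat_lit 1) Sb.nil)) (Bl.r Y2_2_1_0 (nat_lit 0) Bl.nil)) (Sl.cons (Sd.mk (nat_lit 4) (nat_lit 4) (nat_lit 4) (nat_lit 2) (Sb.cons (nat_lit 0) (nat_lit 0) (nat_lit 2) Sb.nil) Bl.nil) Sl.nil))))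
noncomputable def SI2_3 : Nat := (nat_lit 0x400)
noncomputable def SW2_3 : Nat := (nat_lit 0x1)
noncomputable def RV2_3 : Nat := (nat_lit 0x88005088008)
noncomputable def CO2_3 : Nat := (nat_lit 0x82c4000b84)
noncomputable def Y2_3_1_0 : Nat := (nat_lit 0x10)
noncomputable def C2_3 : Cd := (Cd.mk (nat_lit 2) (nat_lit 7) (nat_lit 262) SI2_3 SW2_3 RV2_3 CO2_3 (Sl.cons (Sd.mk (nat_lit 0) (nat_lit 0) (nat_lit 0) (nat_lit 1) (Sb.cons (nat_lit 0) (nat_lit 0) (nat_lit 1) Sb.nil) (Bl.c Y2_3_1_0 (nat_lit 2) (nat_lit 1) Bl.nil)) (Sl.cons (Sd.mk (nat_lit 2) (nat_lit 0) (nat_lit 1) (nat_lit 1) (Sb.cons (nat_lit 0) (nat_lit 0) (nat_lit 1) Sb.nil) (Bl.r Y2_3_1_0 (nat_lit 0) Bl.nil)) Sl.nil)))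
noncomputable def SI2_4 : Nat := (nat_lit 0x1405014040100400c0200400)
noncomputable def SW2_4 : Nat := (nat_lit 0xc0050020024010007001000c000001)
noncomputable def RV2_4 : Nat := (nat_lit 0xa04005206000204000204003206001204002088002088003204001a04004)
noncomputable def CO2_4 : Nat := (nat_lit 0x3290203280303280202b04202b00302b002025584016644010042001102)
noncomputable def Y2_4_1_2 : Nat := (nat_lit 0x10)
noncomputable def Y2_4_3_4 : Nat := (nat_lit 0x70)
noncomputable def C2_4 : Cd := (Cd.mk (nat_lit 10) (nat_lit 4) (nat_lit 4369) SI2_4 SW2_4 RV2_4 CO2_4 (Sl.cons (Sd.mk (nat_lit 0) (nat_lit 0) (nat_lit 0) (nat_lit 1) (Sb.cons (nat_lit 4) (nat_lit 0) (nat_lit 1) Sb.nil) Bl.nil) (Sl.cons (Sd.mk (nat_lit 4) (nat_lit 4) (nat_lit 1) (nat_lit 1) (Sb.cons (nat_lit 0) (nat_lit 0) (nat_lit 1) Sb.nil) (Bl.r Y2_4_1_2 (nat_lit 2) Bl.nil)) (Sl.cons (Sd.mk (nat_lit 5) (nat_lit 4) (nat_lit 2) (nat_lit 1) (Sb.cons (nat_lit 8) (nat_lit 0) (nat_lit 1) Sb.nil) (Bl.c Y2_4_1_2 (nat_lit 2) (nat_lit 1) Bl.nil))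 (Sl.cons (Sd.mk (nat_lit 9) (nat_lit 8) (nat_lit 3) (nat_lit 1) (Sb.cons (nat_lit 4) (nat_lit 0) (nat_lit 1) Sb.nil) (Bl.r Y2_4_3_4 (nat_lit 4) Bl.nil)) (Sl.cons (Sd.mk (nat_lit 10) (nat_lit 8) (nat_lit 4) (nat_lit 3) (Sb.cons (nat_lit 12) (nat_lit 0) (nat_lit 3) Sb.nil) (Bl.c Y2_4_3_4 (nat_lit 2) (nat_lit 3) Bl.nil)) (Sl.cons (Sd.mk (nat_lit 12) (nat_lit 12) (nat_lit 7) (nat_lit 3) (Sb.cons (nat_lit 8) (nat_lit 0) (nat_lit 3) Sb.nil) Bl.nil) Sl.nil)))))))
noncomputable def CL2 : Cl := (Cl.cons C2_0 (Cl.cons C2_1 (Cl.cons C2_2 (Cl.cons C2_3 (Cl.cons C2_4 Cl.nil)))))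
noncomputable def AL2_0 : Nat := (nat_lit 0)
noncomputable def A42_0 : Nat := (nat_lit 0)
noncomputable def IX2_0 : Nat := (nat_lit 0)
noncomputable def OL2_0 : Nat := (nat_lit 0)
noncomputable def AL2_1 : Nat := (nat_lit 0)
noncomputable def A42_1 : Nat := (nat_lit 0)
noncomputable def IX2_1 : Nat := (nat_lit 0)
noncomputable def OL2_1 : Nat := (nat_lit 0)
noncomputable def AL2_2 : Nat := (nat_lit 0x3effe)
noncomputable def A42_2 : Nat := (nat_lit 0xcaa)
noncomputable def IX2_2 : Nat := (nat_lit 0x500000000000040000000000000000000000000000000000000030000000000000000000000000200000000000000000000000001000000000000000000000000000000000000000)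
noncomputable def OL2_2 : Nat := (nat_lit 0x160028003800500060004)
noncomputable def AL2_3 : Nat := (nat_lit 0x7e)
noncomputable def A42_3 : Nat := (nat_lit 0xa)
noncomputable def IX2_3 : Nat := (nat_lit 0x1000000000000000000000000000000000000000)
noncomputable def OL2_3 : Nat := (nat_lit 0x60004)
noncomputable def AL2_4 : Nat := (nat_lit 0x1e0383c030608e02)
noncomputable def A42_4 : Nat := (nat_lit 0x160001c020408002)
noncomputable def IX2_4 : Nat := (nat_lit 0x9000000000000000000000000080000000000007000000000000000000000000000000000000000000000000000000000000000000000000000000000000000000000000000000000000000000000000000000000000000000000000000000000000000000000000000000000000000000000000000000000000000000000000000060000000000005000000000000400000000000000000000000000000000000000000000000000000000000000000000000000000000000000000000000000000000000000000000300000000000000000000000000000000000000000000000000000000000000000000000000000000000000000020000000000000000000000000000000000000000000000000000000000000000000000000000000000000000001000000000000000000000000000000000000000000000000000000000000000000000000000000000000000000000000000000000000000000000000000000000000000000000000000000000000000000000000000000000000000000000000000)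
noncomputable def OL2_4 : Nat := (nat_lit 0x7800e801c8028004e009800e8016001e0004)
noncomputable def TL2 : Tl := (Tl.cons (Tr.mk AL2_0 A42_0 IX2_0 OL2_0) (Tl.cons (Tr.mk AL2_1 A42_1 IX2_1 OL2_1) (Tl.cons (Tr.mk AL2_2 A42_2 IX2_2 OL2_2) (Tl.cons (Tr.mk AL2_3 A42_3 IX2_3 OL2_3) (Tl.cons (Tr.mk AL2_4 A42_4 IX2_4 OL2_4) Tl.nil)))))
noncomputable def ZL2_0 : Zl := (Zl.cons (nat_lit 0) (nat_lit 0) (nat_lit 0) (Zl.cons (nat_lit 0) (nat_lit 0) (nat_lit 0) (Zl.cons (nat_lit 4) (nat_lit 0) (nat_lit 2) (Zl.cons (nat_lit 0) (nat_lit 0) (nat_lit 0) (Zl.cons (nat_lit 1) (nat_lit 2) (nat_lit 1) Zl.nil)))))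
noncomputable def ZZ2 : ZZ := (ZZ.cons ZL2_0 ZZ.nil)
def wf0_0 : wfC (nat_lit 40) (nat_lit 2) C0_0 = true := by decide +kernel
def pl0_0 : plCk (nat_lit 40) (nat_lit 2) (nat_lit 11) (nat_lit 0) (nat_lit 0) (nat_lit 7) (nat_lit 5) (nat_lit 4) (nat_lit 0) nl0 CL0 = true := by decide +kernel
def wf0_1 : wfC (nat_lit 40) (nat_lit 2) C0_1 = true := by decide +kernel
def pl0_1 : plCk (nat_lit 40) (nat_lit 2) (nat_lit 11) (nat_lit 0) (nat_lit 0) (nat_lit 7) (nat_lit 5) (nat_lit 4) (nat_lit 1) nl0 CL0 = true := by decide +kernel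
def wf0_2 : wfC (nat_lit 40) (nat_lit 2) C0_2 = true := by decide +kernel
def pl0_2 : plCk (nat_lit 40) (nat_lit 2) (nat_lit 11) (nat_lit 0) (nat_lit 0) (nat_lit 7) (nat_lit 5) (nat_lit 4) (nat_lit 2) nl0 CL0 = true := by decide +kernel
def wf0_3 : wfC (nat_lit 40) (nat_lit 2) C0_3 = true := by decide +kernel
def pl0_3 : plCk (nat_lit 40) (nat_lit 2) (nat_lit 11) (nat_lit 0) (nat_lit 0) (nat_lit 7) (nat_lit 5) (nat_lit 4) (nat_lit 3) nl0 CL0 = true := by decide +kernel
def wf0_4 : wfC (nat_lit 40) (nat_lit 2) C0_4 = true := by decide +kernel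
def pl0_4 : plCk (nat_lit 40) (nat_lit 2) (nat_lit 11) (nat_lit 0) (nat_lit 0) (nat_lit 7) (nat_lit 5) (nat_lit 4) (nat_lit 4) nl0 CL0 = true := by decide +kernel
def ti0_0 : tileCk (nat_lit 40) (nat_lit 2) (nat_lit 1) (nat_lit 1) (nat_lit 30) (nat_lit 11) (nat_lit 5) ZL0_0 CL0 = true := by decide +kernel
def zl0_0 : zlOK (nat_lit 30) ZL0_0 = true := by decide +kernel
def tc0_0 : tiCov (nat_lit 1) (nat_lit 0) ZZ0 C0_0 = true := by decide +kernel
def tc0_1 : tiCov (nat_lit 1) (nat_lit 1) ZZ0 C0_1 = true := by decide +kernel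
def tc0_2 : tiCov (nat_lit 1) (nat_lit 2) ZZ0 C0_2 = true := by decide +kernel
def tc0_3 : tiCov (nat_lit 1) (nat_lit 3) ZZ0 C0_3 = true := by decide +kernel
def tc0_4 : tiCov (nat_lit 1) (nat_lit 4) ZZ0 C0_4 = true := by decide +kernel
def wf1_0 : wfC (nat_lit 18) (nat_lit 2) C1_0 = true := by decide +kernel
def rf1_0 : rfCk (nat_lit 40) (nat_lit 2) (nat_lit 18) (nat_lit 2) (nat_lit 9) (nat_lit 0) (nat_lit 0) TL1 CL0 CL1 = true := by decide +kernel
def st1_0_0 : starCk (nat_lit 18) (nat_lit 2) (nat_lit 1) (nat_lit 1) (nat_lit 1) (nat_lit 0) (nat_lit 1) C1_0 = true := by decide +kernel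
def sc1_0 : stCov (nat_lit 0) (nat_lit 0) (Rl.cons (nat_lit 0) (nat_lit 1) Rl.nil) C1_0 = true := by decide +kernel
def wf1_1 : wfC (nat_lit 18) (nat_lit 2) C1_1 = true := by decide +kernel
def rf1_1 : rfCk (nat_lit 40) (nat_lit 2) (nat_lit 18) (nat_lit 2) (nat_lit 9) (nat_lit 0) (nat_lit 1) TL1 CL0 CL1 = true := by decide +kernel
def st1_1_0 : starCk (nat_lit 18) (nat_lit 2) (nat_lit 1) (nat_lit 1) (nat_lit 3) (nat_lit 4) (nat_lit 1) C1_1 = true := by decide +kernel
def sc1_1 : stCov (nat_lit 0) (nat_lit 4) (Rl.cons (nat_lit 4) (nat_lit 3) Rl.nil) C1_1 = true := by decide +kernel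
def wf1_2 : wfC (nat_lit 18) (nat_lit 2) C1_2 = true := by decide +kernel
def rf1_2 : rfCk (nat_lit 40) (nat_lit 2) (nat_lit 18) (nat_lit 2) (nat_lit 9) (nat_lit 0) (nat_lit 2) TL1 CL0 CL1 = true := by decide +kernel
def st1_2_0 : starCk (nat_lit 18) (nat_lit 2) (nat_lit 1) (nat_lit 1) (nat_lit 4) (nat_lit 5) (nat_lit 1) C1_2 = true := by decide +kernel
def sc1_2 : stCov (nat_lit 0) (nat_lit 5) (Rl.cons (nat_lit 5) (nat_lit 4) Rl.nil) C1_2 = true := by decide +kernel
def wf1_3 : wfC (nat_lit 18) (nat_lit 2) C1_3 = true := by decide +kernel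
def rf1_3 : rfCk (nat_lit 40) (nat_lit 2) (nat_lit 18) (nat_lit 2) (nat_lit 9) (nat_lit 0) (nat_lit 3) TL1 CL0 CL1 = true := by decide +kernel
def st1_3_0 : starCk (nat_lit 18) (nat_lit 2) (nat_lit 1) (nat_lit 1) (nat_lit 1) (nat_lit 5) (nat_lit 256) C1_3 = true := by decide +kernel
def sc1_3 : stCov (nat_lit 2) (nat_lit 5) (Rl.cons (nat_lit 5) (nat_lit 1) Rl.nil) C1_3 = true := by decide +kernel
def wf1_4 : wfC (nat_lit 18) (nat_lit 2) C1_4 = true := by decide +kernel
def rf1_4 : rfCk (nat_lit 40) (nat_lit 2) (nat_lit 18) (nat_lit 2) (nat_lit 9) (nat_lit 0) (nat_lit 4) TL1 CL0 CL1 = true := by decide +kernel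
def st1_4_0 : starCk (nat_lit 18) (nat_lit 2) (nat_lit 1) (nat_lit 1) (nat_lit 7) (nat_lit 14) (nat_lit 16) C1_4 = true := by decide +kernel
def sc1_4 : stCov (nat_lit 1) (nat_lit 14) (Rl.cons (nat_lit 14) (nat_lit 7) Rl.nil) C1_4 = true := by decide +kernel
def wf2_2 : wfC (nat_lit 4) (nat_lit 2) C2_2 = true := by decide +kernel
def rf2_2 : rfCk (nat_lit 18) (nat_lit 2) (nat_lit 4) (nat_lit 2) (nat_lit 9) (nat_lit 0) (nat_lit 2) TL2 CL1 CL2 = true := by decide +kernel
def wf2_3 : wfC (nat_lit 4) (nat_lit 2) C2_3 = true := by decide +kernel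
def rf2_3 : rfCk (nat_lit 18) (nat_lit 2) (nat_lit 4) (nat_lit 2) (nat_lit 9) (nat_lit 0) (nat_lit 3) TL2 CL1 CL2 = true := by decide +kernel
def wf2_4 : wfC (nat_lit 4) (nat_lit 2) C2_4 = true := by decide +kernel
def rf2_4 : rfCk (nat_lit 18) (nat_lit 2) (nat_lit 4) (nat_lit 2) (nat_lit 9) (nat_lit 0) (nat_lit 4) TL2 CL1 CL2 = true := by decide +kernel
def ti2_0 : tileCk (nat_lit 4) (nat_lit 2) (nat_lit 1) (nat_lit 1) (nat_lit 3) (nat_lit 11) (nat_lit 5) ZL2_0 CL2 = true := by decide +kernel
def zl2_0 : zlOK (nat_lit 3) ZL2_0 = true := by decide +kernel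
def tc2_2 : tiCov (nat_lit 1) (nat_lit 2) ZZ2 C2_2 = true := by decide +kernel
def tc2_3 : tiCov (nat_lit 1) (nat_lit 3) ZZ2 C2_3 = true := by decide +kernel
def tc2_4 : tiCov (nat_lit 1) (nat_lit 4) ZZ2 C2_4 = true := by decide +kernel
def de2_2 : deadCk (nat_lit 4) (nat_lit 2) C2_2 = true := by decide +kernel
def de2_3 : deadCk (nat_lit 4) (nat_lit 2) C2_3 = true := by decide +kernel
def de2_4 : deadCk (nat_lit 4) (nat_lit 2) C2_4 = true := by decide +kernel
def sc0_0 : stCov (nat_lit 0) (nat_lit 0) (Rl.cons (nat_lit 0) (nat_lit 21) Rl.nil) C0_0 = true := by decide +kernel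
def sc0_1 : stCov (nat_lit 0) (nat_lit 0) (Rl.cons (nat_lit 0) (nat_lit 56) Rl.nil) C0_1 = true := by decide +kernel
def sc0_2 : stCov (nat_lit 0) (nat_lit 0) (Rl.cons (nat_lit 0) (nat_lit 25) Rl.nil) C0_2 = true := by decide +kernel
def sc0_3 : stCov (nat_lit 0) (nat_lit 0) (Rl.cons (nat_lit 0) (nat_lit 20) Rl.nil) C0_3 = true := by decide +kernel
def sc0_4 : stCov (nat_lit 0) (nat_lit 0) (Rl.cons (nat_lit 0) (nat_lit 188) Rl.nil) C0_4 = true := by decide +kernel
def zl1_0 : zlOK (nat_lit 72) ZL1_0 = true := by decide +kernel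
def tc1_0 : tiCov (nat_lit 1) (nat_lit 0) ZZ1 C1_0 = true := by decide +kernel
def tc1_1 : tiCov (nat_lit 1) (nat_lit 1) ZZ1 C1_1 = true := by decide +kernel
def tc1_2 : tiCov (nat_lit 1) (nat_lit 2) ZZ1 C1_2 = true := by decide +kernel
def tc1_3 : tiCov (nat_lit 1) (nat_lit 3) ZZ1 C1_3 = true := by decide +kernel
def tc1_4 : tiCov (nat_lit 1) (nat_lit 4) ZZ1 C1_4 = true := by decide +kernel
def wf2_0 : wfC (nat_lit 4) (nat_lit 2) C2_0 = true := by decide +kernel
def wf2_1 : wfC (nat_lit 4) (nat_lit 2) C2_1 = true := by decide +kernel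
def rf2_0 : rfCk (nat_lit 18) (nat_lit 2) (nat_lit 4) (nat_lit 2) (nat_lit 9) (nat_lit 0) (nat_lit 0) TL2 CL1 CL2 = true := by decide +kernel
def rf2_1 : rfCk (nat_lit 18) (nat_lit 2) (nat_lit 4) (nat_lit 2) (nat_lit 9) (nat_lit 0) (nat_lit 1) TL2 CL1 CL2 = true := by decide +kernel
def sc2_0 : stCov (nat_lit 0) (nat_lit 0) Rl.nil C2_0 = true := by decide +kernel
def sc2_1 : stCov (nat_lit 0) (nat_lit 0) Rl.nil C2_1 = true := by decide +kernel
def sc2_2 : stCov (nat_lit 0) (nat_lit 0) (Rl.cons (nat_lit 0) (nat_lit 6) Rl.nil) C2_2 = true := by decide +kernel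
def sc2_3 : stCov (nat_lit 0) (nat_lit 0) (Rl.cons (nat_lit 0) (nat_lit 2) Rl.nil) C2_3 = true := by decide +kernel
def sc2_4 : stCov (nat_lit 0) (nat_lit 0) (Rl.cons (nat_lit 0) (nat_lit 10) Rl.nil) C2_4 = true := by decide +kernel
def tc2_0 : tiCov (nat_lit 1) (nat_lit 0) ZZ2 C2_0 = true := by decide +kernel
def tc2_1 : tiCov (nat_lit 1) (nat_lit 1) ZZ2 C2_1 = true := by decide +kernel
def de2_0 : deadCk (nat_lit 4) (nat_lit 2) C2_0 = true := by decide +kernel
def de2_1 : deadCk (nat_lit 4) (nat_lit 2) C2_1 = true := by decide +kernel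

end Pool.Agent.NNr.R11_6_7_10
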